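import Pool.Agent.R737.PK.Stm

/-!
# MP_8cb80e_co, piece COMB: the counts are given by the peak polynomials
-/

set_option autoImplicit false

open Polynomial

namespace Pool.Agent.R68.PK

open Pool.Agent.R737.PK

theorem prod_eval (n q : ℕ) : ∏ i ∈ Finset.range q, ((n : ℝ) - i) = (n.descFactorial q : ℝ) := by
  induction q with
  | zero => simp
  | succ q ih =>
    rw [Finset.prod_range_succ, ih, Nat.descFactorial_succ]
    rcases Nat.lt_or_ge n q with h | h
    · rw [Nat.descFactorial_eq_zero_iff_lt.2 h]
      simp
    · push_cast [Nat.cast_sub h]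
      ring

theorem binX_eval (n q : ℕ) : (binX q).eval (n : ℝ) = (n.choose q : ℝ) := by
  have h : (binX q).eval (n : ℝ) = (q.factorial : ℝ)⁻¹ * ∏ i ∈ Finset.range q, ((n : ℝ) - i) := by
    simp [binX, eval_prod]
  rw [h, prod_eval, Nat.descFactorial_eq_factorial_mul_choose]
  have : (q.factorial : ℝ) ≠ 0 := by positivity
  push_cast
  field_simp

theorem head_le {L : List ℕ} (hL : Desc L) : ∀ i ∈ L, i ≤ L.headD 0 := by
  cases L with
  | nil => simp
  | cons a L =>
    intro i hi
    rcases List.mem_cons.1 hi with rfl | hi
    · simp
    · have := (List.pairwise_cons.1 hL.1).1 i hi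
      simp
      omega

theorem desc_tail {m : ℕ} {L : List ℕ} (h : Desc (m :: L)) : Desc L :=
  ⟨(List.pairwise_cons.1 h.1).2, fun a ha => h.2 a (List.mem_cons_of_mem _ ha)⟩

theorem head_gap {m : ℕ} {L : List ℕ} (h : Desc (m :: L)) : L.headD 0 + 2 ≤ m := by
  cases L with
  | nil => simpa using h.2 m (by simp)
  | cons a L => simpa using (List.pairwise_cons.1 h.1).1 a (by simp)

theorem stComb (hRec : StRec) (hEmp : StEmp) (hAdm : StAdm) : StComb := by
  intro L
  induction L with
  | nil =>
    intro _ n hn _
    obtain ⟨k, rfl⟩ : ∃ k, n = k + 1 := ⟨n - 1, by omega⟩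
    simp only [List.toFinset_nil, hEmp (k + 1) hn, pp, eval_one, List.length_nil]
    simp [pow_succ]
  | cons m L ih =>
    intro hD
    have hL := desc_tail hD
    have IH := ih hL
    have hg := head_gap hD
    set j := L.headD 0 with hj
    have key : ∀ g, 1 ≤ g → ∀ n, 1 ≤ n → j + g ≤ n →
        (count (insert (j + g) L.toFinset) n : ℝ) =
          (stp (pp L) j g).eval (n : ℝ) * 2 ^ n / 2 ^ (L.length + 2) := by
      intro g hg1
      induction g, hg1 using Nat.le_induction with
      | base =>
        intro n hn hjn
        have h0 : count (insert (j + 1) L.toFinset) n = 0 := by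
          by_contra hc
          have h1 := hAdm.1 _ _ hc
          cases L with
          | nil =>
            have := h1 (j + 1) (by simp)
            simp at hj
            omega
          | cons a L' =>
            have hja : j = a := by rw [hj]; rfl
            have h2 := h1 a (by simp)
            exact h2.2.2 (by rw [hja]; simp)
        rw [h0]
        simp [stp]
      | succ g hg1 ihg =>
        intro n hn hjn
        have hS : ∀ i ∈ L.toFinset, 2 ≤ i ∧ i + 2 ≤ j + (g + 1) := by
          intro i hi
          rw [List.mem_toFinset] at hi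
          have h1 := hL.2 i hi
          have h2 := head_le hL i hi
          omega
        have hr := hRec L.toFinset (j + (g + 1)) (by
          cases L with
          | nil => omega
          | cons a L' =>
            have := hL.2 a (by simp)
            have hja : j = a := by rw [hj]; rfl
            omega) hS n hjn
        have e1 : j + (g + 1) - 1 = j + g := by omega
        rw [e1] at hr
        have i1 := IH n hn (by omega)
        have i2 := IH (j + g) (by omega) (by omega)
        have i3 := ihg n hn (by omega)
        obtain ⟨g', rfl⟩ : ∃ g', g = g' + 1 := ⟨g - 1, by omega⟩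
        have hs : (stp (pp L) j (g' + 1 + 1)).eval (n : ℝ) =
            (pp L).eval ((j + g' + 1 : ℕ) : ℝ) * (n.choose (j + g' + 1) : ℝ) -
              2 * (pp L).eval (n : ℝ) - (stp (pp L) j (g' + 1)).eval (n : ℝ) := by
          simp only [stp, eval_sub, eval_mul, eval_C, binX_eval]
          simp
        rw [hs]
        have hr' := congrArg (Nat.cast : ℕ → ℝ) hr
        push_cast at hr'
        rw [i1, i2, i3] at hr'
        obtain ⟨d, hd⟩ : ∃ d, n = j + (g' + 1 + 1) + d := ⟨n - (j + (g' + 1 + 1)), by omega⟩
        have hd' : n - (j + (g' + 1 + 1)) = d := by omega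
        rw [hd'] at hr'
        have hp : (2 : ℝ) ^ n = 2 ^ (j + (g' + 1)) * 2 ^ d * 2 := by
          rw [hd]
          ring
        have e3 : j + (g' + 1) = j + g' + 1 := by omega
        rw [e3] at hr' hp
        push_cast at hr' ⊢
        have e4 : (2 : ℝ) ^ (L.length + 2) = 2 ^ (L.length + 1) * 2 := by ring
        rw [e4] at hr' ⊢
        have hne : (2 : ℝ) ^ (L.length + 1) ≠ 0 := by positivity
        generalize (2 : ℝ) ^ (L.length + 1) = A at *
        generalize (2 : ℝ) ^ n = B at *
        generalize (2 : ℝ) ^ (j + g' + 1) = F at *
        generalize (2 : ℝ) ^ d = G at *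
        subst hp
        field_simp at hr' ⊢
        linarith
    intro n hn hmn
    have hm : j + (m - j) = m := by omega
    have h := key (m - j) (by omega) n hn (by simpa [hm] using hmn)
    rw [hm] at h
    rw [List.toFinset_cons, h]
    simp only [pp, List.length_cons, ← hj]

end Pool.Agent.R68.PK
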