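import Pool.Agent.R737.PK.Stm

/-!
# MP_8cb80e_co, piece EMP: there are `2 ^ (n - 1)` peak free permutations of `n` letters
-/

set_option autoImplicit false

namespace Pool.Agent.R68.PK

open Pool.Agent.R737.PK

/-- the largest letter is inserted at the position `p` -/
def ins {n : ℕ} (p : Fin (n + 1)) (σ : Equiv.Perm (Fin n)) : Equiv.Perm (Fin (n + 1)) :=
  (finSuccEquiv' p).trans ((Equiv.optionCongr σ).trans (finSuccEquiv' (Fin.last n)).symm)

theorem ins_self {n : ℕ} (p : Fin (n + 1)) (σ : Equiv.Perm (Fin n)) :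
    ins p σ p = Fin.last n := by
  simp [ins]

theorem ins_succAbove {n : ℕ} (p : Fin (n + 1)) (σ : Equiv.Perm (Fin n)) (i : Fin n) :
    ins p σ (p.succAbove i) = (σ i).castSucc := by
  simp [ins]

theorem exists_ins {n : ℕ} (π : Equiv.Perm (Fin (n + 1))) (p : Fin (n + 1))
    (hp : π p = Fin.last n) : ∃ σ, ins p σ = π := by
  set e : Option (Fin n) ≃ Option (Fin n) :=
    (finSuccEquiv' p).symm.trans (π.trans (finSuccEquiv' (Fin.last n))) with he
  have h0 : e none = none := by simp [he, hp]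
  refine ⟨Equiv.removeNone e, ?_⟩
  ext x
  congr 1
  rcases Fin.eq_self_or_eq_succAbove p x with rfl | ⟨i, rfl⟩
  · rw [ins_self, hp]
  · rw [ins_succAbove]
    have h1 : ∃ y, e (some i) = some y := by
      rcases h : e (some i) with _ | y
      · exact absurd (e.injective (h.trans h0.symm)) (by simp)
      · exact ⟨y, rfl⟩
    have h2 := Equiv.removeNone_some e h1
    have h3 : e (some i) = finSuccEquiv' (Fin.last n) (π (p.succAbove i)) := by simp [he]
    rw [h3] at h2
    have h4 := congrArg (finSuccEquiv' (Fin.last n)).symm h2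
    rw [Equiv.symm_apply_apply] at h4
    rw [← h4]
    simp

/-- no peak -/
def PF {n : ℕ} (π : Equiv.Perm (Fin n)) : Prop := ∀ i, ¬ IsPeak π i

theorem pf_iff {n : ℕ} (π : Equiv.Perm (Fin n)) : PF π ↔ ∀ (a : ℕ) (h : a + 2 < n),
    ¬ (π ⟨a, by omega⟩ < π ⟨a + 1, by omega⟩ ∧ π ⟨a + 2, h⟩ < π ⟨a + 1, by omega⟩) := by
  constructor
  · intro h a ha hh
    refine h (a + 2) ⟨by omega, ha, ?_⟩
    exact hh
  · rintro h i ⟨h1, h2, h3⟩
    obtain ⟨a, rfl⟩ : ∃ a, i = a + 2 := ⟨i - 2, by omega⟩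
    exact h a h2 h3

theorem pf_last {n : ℕ} (σ : Equiv.Perm (Fin n)) : PF (ins (Fin.last n) σ) ↔ PF σ := by
  have hv : ∀ (a : ℕ) (h : a < n), ins (Fin.last n) σ ⟨a, by omega⟩ = (σ ⟨a, h⟩).castSucc := by
    intro a h
    have h1 := ins_succAbove (Fin.last n) σ ⟨a, h⟩
    rw [Fin.succAbove_last] at h1
    exact h1
  rw [pf_iff, pf_iff]
  constructor
  · intro h a ha hh
    refine h a (by omega) ?_
    rw [hv a (by omega), hv (a + 1) (by omega), hv (a + 2) ha]
    exact hh
  · intro h a ha hh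
    rcases Nat.lt_or_ge (a + 2) n with h1 | h1
    · refine h a h1 ?_
      rw [hv a (by omega), hv (a + 1) (by omega), hv (a + 2) h1] at hh
      exact hh
    · have h2 : (⟨a + 2, ha⟩ : Fin (n + 1)) = Fin.last n := Fin.ext (by simp; omega)
      rw [h2, ins_self] at hh
      exact absurd hh.2 (not_lt.2 (Fin.le_last _))

theorem pf_zero {n : ℕ} (σ : Equiv.Perm (Fin n)) : PF (ins 0 σ) ↔ PF σ := by
  have hv : ∀ (a : ℕ) (h : a < n), ins 0 σ ⟨a + 1, by omega⟩ = (σ ⟨a, h⟩).castSucc := by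
    intro a h
    have h1 := ins_succAbove 0 σ ⟨a, h⟩
    rw [Fin.succAbove_zero] at h1
    exact h1
  rw [pf_iff, pf_iff]
  constructor
  · intro h a ha hh
    refine h (a + 1) (by omega) ?_
    rw [hv a (by omega)]
    have e1 := hv (a + 1) (by omega)
    have e2 := hv (a + 2) ha
    refine ⟨?_, ?_⟩
    · exact (Fin.castSucc_lt_castSucc_iff.2 hh.1).trans_eq e1.symm
    · exact (e2.le.trans_lt (Fin.castSucc_lt_castSucc_iff.2 hh.2)).trans_eq e1.symm
  · intro h a ha hh
    rcases a with _ | a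
    · have h2 : (⟨0, by omega⟩ : Fin (n + 1)) = 0 := rfl
      rw [h2, ins_self] at hh
      exact absurd hh.1 (not_lt.2 (Fin.le_last _))
    · refine h a (by omega) ?_
      have e0 := hv a (by omega)
      have e1 := hv (a + 1) (by omega)
      have e2 := hv (a + 2) (by omega)
      have f1 := hh.1
      have f2 := hh.2
      refine ⟨?_, ?_⟩
      · rw [← Fin.castSucc_lt_castSucc_iff, ← e0, ← e1]
        exact f1
      · rw [← Fin.castSucc_lt_castSucc_iff, ← e2, ← e1]
        exact f2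

theorem pf_pos {n : ℕ} (π : Equiv.Perm (Fin (n + 1))) (h : PF π) (p : Fin (n + 1))
    (hp : π p = Fin.last n) : p = 0 ∨ p = Fin.last n := by
  by_contra hc
  push Not at hc
  have h0 : (p : ℕ) ≠ 0 := fun h => hc.1 (Fin.ext h)
  have h1 : (p : ℕ) ≠ n := fun h => hc.2 (Fin.ext h)
  have h2 := p.2
  rw [pf_iff] at h
  refine h ((p : ℕ) - 1) (by omega) ?_
  have e : (⟨(p : ℕ) - 1 + 1, by omega⟩ : Fin (n + 1)) = p := Fin.ext (by simp; omega)
  rw [e, hp]
  constructor
  · refine lt_of_le_of_ne (Fin.le_last _) ?_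
    intro hh
    have := congrArg Fin.val (π.injective (hh.trans hp.symm))
    simp at this
    omega
  · refine lt_of_le_of_ne (Fin.le_last _) ?_
    intro hh
    have := congrArg Fin.val (π.injective (hh.trans hp.symm))
    simp at this
    omega

theorem ins_inj {n : ℕ} {p p' : Fin (n + 1)} {σ σ' : Equiv.Perm (Fin n)}
    (h : ins p σ = ins p' σ') : p = p' ∧ σ = σ' := by
  have h1 : p = p' := by
    apply (ins p σ).injective
    rw [ins_self]
    rw [h, ins_self]
  subst h1
  refine ⟨rfl, ?_⟩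
  ext i
  have h2 := ins_succAbove p σ i
  rw [h, ins_succAbove] at h2
  have := congrArg Fin.val h2
  simpa using this.symm

/-- the two ends -/
def ed (n : ℕ) (b : Bool) : Fin (n + 1) := if b then 0 else Fin.last n

theorem pf_ed {n : ℕ} (b : Bool) (σ : Equiv.Perm (Fin n)) : PF (ins (ed n b) σ) ↔ PF σ := by
  cases b
  · simpa [ed] using pf_last σ
  · simpa [ed] using pf_zero σ

theorem card_succ (n : ℕ) (hn : 1 ≤ n) :
    Nat.card {π : Equiv.Perm (Fin (n + 1)) // PF π} =
      2 * Nat.card {π : Equiv.Perm (Fin n) // PF π} := by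
  have e : Nat.card (Bool × {π : Equiv.Perm (Fin n) // PF π}) =
      Nat.card {π : Equiv.Perm (Fin (n + 1)) // PF π} := by
    refine Nat.card_congr (Equiv.ofBijective
      (fun x => ⟨ins (ed n x.1) x.2.1, (pf_ed x.1 x.2.1).2 x.2.2⟩) ⟨?_, ?_⟩)
    · rintro ⟨b, σ, hσ⟩ ⟨b', σ', hσ'⟩ h
      simp only [Subtype.mk.injEq] at h
      obtain ⟨h1, h2⟩ := ins_inj h
      subst h2
      have : b = b' := by
        cases b <;> cases b' <;> simp [ed, Fin.ext_iff] at h1 ⊢ <;> omega
      subst this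
      rfl
    · rintro ⟨π, hπ⟩
      have h1 := pf_pos π hπ (π.symm (Fin.last n)) (π.apply_symm_apply _)
      have h2 : ∃ b, ed n b = π.symm (Fin.last n) := by
        rcases h1 with h1 | h1
        · exact ⟨true, by simp [ed, h1]⟩
        · exact ⟨false, by rw [h1]; simp [ed]⟩
      obtain ⟨b, hb⟩ := h2
      obtain ⟨σ, hσ⟩ := exists_ins π (ed n b) (by rw [hb]; exact π.apply_symm_apply _)
      refine ⟨⟨b, σ, (pf_ed b σ).1 (by rw [hσ]; exact hπ)⟩, ?_⟩
      exact Subtype.ext hσ
  rw [← e, Nat.card_prod]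
  simp

theorem count_empty (n : ℕ) : count ∅ n = Nat.card {π : Equiv.Perm (Fin n) // PF π} := by
  refine Nat.card_congr (Equiv.subtypeEquivRight fun π => ?_)
  simp [PF]

theorem stEmp : StEmp := by
  intro n hn
  induction n, hn using Nat.le_induction with
  | base =>
    rw [count_empty]
    have : ∀ π : Equiv.Perm (Fin 1), PF π := by
      rintro π i ⟨h1, h2, _⟩
      omega
    have e : Nat.card {π : Equiv.Perm (Fin 1) // PF π} = Nat.card (Equiv.Perm (Fin 1)) :=
      Nat.card_congr (Equiv.subtypeUnivEquiv this)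
    rw [e]
    simp
  | succ n hn ih =>
    rw [count_empty, card_succ n hn, ← count_empty, ih]
    obtain ⟨k, rfl⟩ : ∃ k, n = k + 1 := ⟨n - 1, by omega⟩
    simp [pow_succ, mul_comm]

end Pool.Agent.R68.PK
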